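import Pool.Agent.Helper10.Fam.Stmts

set_option autoImplicit false

/-!
# WORB: the vectors of the list of cusps are in the orbit
-/

namespace Pool.Agent.Helper10.Fam

open Pool.Agent.Helper10.Lor

theorem worb_refl_len (g : ℕ) : ∀ (w : List ℕ) (i : ℕ), (refl g w i).length = w.length := by
  intro w
  induction w with
  | nil => intro i; simp [refl]
  | cons a s ih =>
    intro i
    cases i with
    | zero => simp [refl]
    | succ i => simp [refl, ih i]

theorem worb_refl_sum (g : ℕ) : ∀ (w : List ℕ) (i : ℕ), i < w.length → w.getD i 0 ≤ g →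
    (refl g w i).sum + 2 * w.getD i 0 = w.sum + g := by
  intro w
  induction w with
  | nil => intro i h; simp at h
  | cons a s ih =>
    intro i h h'
    cases i with
    | zero =>
      simp only [List.getD_cons_zero] at h'
      simp only [refl, List.sum_cons, List.getD_cons_zero]
      omega
    | succ i =>
      simp only [List.getD_cons_succ] at h'
      simp only [List.length_cons] at h
      have := ih i (by omega) h'
      simp only [refl, List.sum_cons, List.getD_cons_succ]
      omega

theorem worb_hasDesc (hB : ST_LSTB) (W : List (List ℕ)) (w : List ℕ) :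
    ∀ (gs as : List ℕ) (i : ℕ), hasDesc W w gs as i = true →
      ∃ j, j < as.length ∧ gs.getD j 0 < 2 * as.getD j 0 ∧ as.getD j 0 ≤ gs.getD j 0 ∧
        refl (gs.getD j 0) w (i + j) ∈ W := by
  intro gs
  induction gs with
  | nil => intro as i h; simp [hasDesc] at h
  | cons g gs ih =>
    intro as i h
    cases as with
    | nil => simp [hasDesc] at h
    | cons a as =>
      simp only [hasDesc, Bool.or_eq_true, Bool.and_eq_true, Nat.ble_eq] at h
      rcases h with ⟨⟨h1, h2⟩, h3⟩ | h
      · refine ⟨0, by simp, ?_, ?_, ?_⟩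
        · simp only [List.getD_cons_zero]; omega
        · simpa only [List.getD_cons_zero] using h2
        · simp only [List.getD_cons_zero, Nat.add_zero]
          exact (hB.memL _ _).1 h3
      · obtain ⟨j, j1, j2, j3, j4⟩ := ih as (i + 1) h
        refine ⟨j + 1, by simpa using j1, ?_, ?_, ?_⟩
        · simpa only [List.getD_cons_succ] using j2
        · simpa only [List.getD_cons_succ] using j3
        · simp only [List.getD_cons_succ]
          have e : i + (j + 1) = i + 1 + j := by omega
          rw [e]; exact j4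

theorem worb_listOK (hB : ST_LSTB) (D : Dat) (Ex : List (List ℕ)) :
    ∀ W' : List (List ℕ), listOK D Ex W' = true → ∀ w ∈ W', w.length = D.n + 2 ∧
      (w = D.w0 ∨ hasDesc D.W w (mv D.G w) w 0 = true) := by
  intro W'
  induction W' with
  | nil => intro _ w hw; simp at hw
  | cons v t ih =>
    intro h w hw
    simp only [listOK, Bool.and_eq_true, Bool.or_eq_true] at h
    obtain ⟨⟨⟨h1, h2⟩, -⟩, h4⟩ := h
    rcases List.mem_cons.1 hw with hw | hw
    · subst hw
      refine ⟨Nat.eq_of_beq_eq_true h1, ?_⟩
      rcases h2 with h2 | h2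
      · exact Or.inl ((hB.beqL _ _).1 h2)
      · exact Or.inr h2
    · exact ih h4 w hw

theorem worb_form_sub {n : ℕ} (x y z : LV n) (c : ℝ) :
    form (x - c • y) z = form x z - c * form y z := by
  simp only [form, Prod.fst_sub, Prod.snd_sub, Prod.smul_fst, Prod.smul_snd, inner_sub_left,
    real_inner_smul_left, smul_eq_mul]
  ring

theorem worb_rf_rf (hA : ST_ALPH) (D : Dat) (β : Fin D.n → E D.n) (hD : DOK D)
    (hβ : IsBase D β) (i : ℕ) (hi : i < D.n + 2) (v : LV D.n) :
    rf D β i (rf D β i v) = v := by
  have h1 : form (alp D β i) (alp D β i) = 2 := by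
    rw [hA.form_alp D β hD hβ i hi i hi, hD.diagG i hi]
    simp
  unfold rf
  rw [worb_form_sub, h1]
  have : form v (alp D β i) - form v (alp D β i) * 2 = -form v (alp D β i) := by ring
  rw [this, neg_smul, sub_neg_eq_add, sub_add_cancel]

theorem st_WORB (hB : ST_LSTB) (hA : ST_ALPH) (hO : ST_ORB) : ST_WORB := by
  intro D β hD hβ Ex hEx
  simp only [cuspsOK, Bool.and_eq_true] at hEx
  have hl := worb_listOK hB D Ex D.W hEx.2
  have hw0 : (w0 : LV D.n) ∈ Orb (latOf β) := ⟨1, (OL (latOf β)).one_mem, rfl⟩
  have main : ∀ s : ℕ, ∀ m ∈ D.W, m.sum = s → wv D β m ∈ Orb (latOf β) := by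
    intro s
    induction s using Nat.strong_induction_on with
    | _ s ih =>
      intro m hm hs
      obtain ⟨hlen, h | h⟩ := hl m hm
      · rw [h, hA.wv_w0 D β hD]; exact hw0
      · obtain ⟨j, j1, j2, j3, j4⟩ := worb_hasDesc hB D.W m _ _ _ h
        rw [Nat.zero_add] at j4
        have hj : j < D.n + 2 := by rw [← hlen]; exact j1
        have hsum := worb_refl_sum ((mv D.G m).getD j 0) m j j1 j3
        have h1 := ih _ (by omega) _ j4 rfl
        have h2 := hO.rf_orb D β hD hβ _ h1 j hj
        rw [← hO.rf_wv D β hD hβ m hlen j hj j3, worb_rf_rf hA D β hD hβ j hj] at h2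
        exact h2
  intro m hm
  exact ⟨(hl m hm).1, main _ m hm rfl⟩

end Pool.Agent.Helper10.Fam
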